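import Pool.Agent.Helper51.GT.Defs

set_option autoImplicit false

/-! Module MATB of the girth project: unitarity of the words. -/

namespace Pool.Agent.Helper51.GT

open Polynomial

section basics

variable {K : Type} [Field K] (φ : K ≃+* K)

theorem matb_fr0 (x : K) : fr φ 0 x = x := by
  simp [fr]

theorem matb_frfr (i j : ℕ) (x : K) : fr φ i (fr φ j x) = fr φ (i + j) x := by
  unfold fr
  rw [pow_add]
  rfl

theorem matb_fr8 (h : Dat φ) (i : ℕ) (x : K) : fr φ (i + 8) x = fr φ i x := by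
  rw [← matb_frfr, h.ord]

theorem matb_dg_mul (a b : K) : dg φ (a * b) = dg φ a * dg φ b := by
  unfold dg
  rw [Matrix.diagonal_mul_diagonal]
  congr 1
  funext i
  rw [map_mul, C_mul]

theorem matb_dg_add (a b : K) : dg φ (a + b) = dg φ a + dg φ b := by
  unfold dg
  rw [Matrix.diagonal_add]
  congr 1
  funext i
  rw [map_add, C_add]

theorem matb_dg_one : dg φ (1 : K) = 1 := by
  unfold dg
  simp

theorem matb_dg_inv {a : K} (ha : a ≠ 0) : dg φ a⁻¹ * dg φ a = 1 := by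
  rw [← matb_dg_mul, inv_mul_cancel₀ ha, matb_dg_one]

theorem matb_dg_inv' {a : K} (ha : a ≠ 0) : dg φ a * dg φ a⁻¹ = 1 := by
  rw [← matb_dg_mul, mul_inv_cancel₀ ha, matb_dg_one]

theorem matb_Zd (h : Dat φ) (a : K) : Zm * dg φ a = dg φ (fr φ 2 a) * Zm := by
  ext1 i j
  unfold dg
  rw [Matrix.mul_diagonal, Matrix.diagonal_mul]
  fin_cases i <;> fin_cases j <;> simp [Zm, matb_frfr]
  rw [matb_fr0, h.ord]

theorem matb_Um : (Um : Mat K) = 1 + Zm + Zm * Zm + Zm * Zm * Zm := by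
  ext1 i j
  fin_cases i <;> fin_cases j <;> simp [Um, Zm]

theorem matb_two (h : Dat φ) : (2 : K[X]) = 0 := by
  rw [show (2 : K[X]) = C 2 from (map_ofNat C 2).symm, h.two, C_0]

theorem matb_add_self (h : Dat φ) (M : Mat K) : M + M = 0 := by
  ext1 i j
  simp only [Matrix.add_apply, Matrix.zero_apply]
  linear_combination (M i j) * matb_two φ h

theorem matb_PU (h : Dat φ) : (1 + Zm) * (Um : Mat K) = (1 + X : K[X]) • (1 : Mat K) := by
  have h2 := matb_two φ h
  ext1 i j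
  fin_cases i <;> fin_cases j <;>
    simp [Um, Zm, add_mul, Matrix.mul_apply, Fin.sum_univ_four]
  all_goals first
    | linear_combination (X : K[X]) * h2
    | linear_combination h2
    | ring

end basics

section abstract_ring

variable {R : Type*} [Ring R]

theorem matb_abs_comm {P U : R} {z : R} (hP : P = 1 + z) (hU : U = 1 + z + z * z + z * z * z) :
    U * P = P * U := by
  subst hP hU
  simp only [mul_add, add_mul, mul_one, one_mul, mul_assoc]
  abel

theorem matb_abs {z p q p2 q2 q4 : R} (h1 : z * p = p2 * z) (h2 : z * q = q2 * z)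
    (h3 : z * q2 = q4 * z) :
    (1 + z) * p * (1 + z) * q * (1 + z) = p * q + (p * q + p * q2 + p2 * q2) * z +
      (p * q2 + p2 * q2 + p2 * q4) * (z * z) + (p2 * q4) * (z * z * z) := by
  have e1 : ∀ w, z * (p * w) = p2 * (z * w) := fun w => by rw [← mul_assoc, h1, mul_assoc]
  have e2 : ∀ w, z * (q * w) = q2 * (z * w) := fun w => by rw [← mul_assoc, h2, mul_assoc]
  have e3 : ∀ w, z * (q2 * w) = q4 * (z * w) := fun w => by rw [← mul_assoc, h3, mul_assoc]
  simp only [mul_add, add_mul, mul_one, one_mul, mul_assoc, e1, e2, e3, h1, h2, h3]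
  abel

theorem matb_abs2 {z b c c7 c1 c3 : R} (h1 : z * c = c7 * z) (h2 : z * c7 = c1 * z)
    (h3 : z * c1 = c3 * z) :
    b * (1 + z + z * z + z * z * z) * c = b * c + b * c7 * z + b * c1 * (z * z) +
      b * c3 * (z * z * z) := by
  have e1 : ∀ w, z * (c * w) = c7 * (z * w) := fun w => by rw [← mul_assoc, h1, mul_assoc]
  have e2 : ∀ w, z * (c7 * w) = c1 * (z * w) := fun w => by rw [← mul_assoc, h2, mul_assoc]
  have e3 : ∀ w, z * (c1 * w) = c3 * (z * w) := fun w => by rw [← mul_assoc, h3, mul_assoc]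
  simp only [mul_add, add_mul, mul_one, one_mul, mul_assoc, e1, e2, e3, h1, h2, h3]

/-- the final computation in an abstract ring -/
theorem matb_abs3 {P U pi bb bb' bb5 b' b7 b7' a a' a7' ba ba5 ba5' : R}
    (hPU : P * U = pi) (hUP : U * P = pi) (hpi : ∀ x, pi * x = x * pi)
    (hbb : bb' * bb = 1) (hb7 : b7' * b7 = 1) (hba : ba5 * ba5' = 1) (haa : a * a' = 1)
    (hRb : P * b' * P * b7' * P = bb * U * bb5) (hRa : P * a' * P * a7' * P = ba * U * ba5) :
    (bb' * P * b') * (a * U * ba) * U = U * (bb5 * (U * (b7 * a7') * P) * ba5') := by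
  have s1 : U * bb5 = bb' * (P * b' * P * b7' * P) := by
    rw [hRb, mul_assoc bb, ← mul_assoc, hbb, one_mul]
  have s2 : a * U * (ba * U * ba5) = pi * P * a7' * P := by
    rw [← hRa]
    calc a * U * (P * a' * P * a7' * P) = a * (U * P) * a' * P * a7' * P := by
          simp only [mul_assoc]
      _ = pi * (a * a') * P * a7' * P := by rw [hUP, ← hpi]; simp only [mul_assoc]
      _ = pi * P * a7' * P := by rw [haa, mul_one]
  calc (bb' * P * b') * (a * U * ba) * U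
      = bb' * P * b' * (a * U * (ba * U * (ba5 * ba5'))) := by
        rw [hba, mul_one]; simp only [mul_assoc]
    _ = bb' * P * b' * (a * U * (ba * U * ba5)) * ba5' := by simp only [mul_assoc]
    _ = bb' * P * b' * (pi * P * a7' * P) * ba5' := by rw [s2]
    _ = bb' * P * b' * P * pi * a7' * P * ba5' := by
        rw [mul_assoc pi, hpi (P * a7'), mul_assoc P a7' pi, ← hpi a7']
        simp only [mul_assoc]
    _ = bb' * P * b' * P * (b7' * (P * U) * b7) * a7' * P * ba5' := by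
        have hpi' : b7' * pi * b7 = pi := by rw [← hpi, mul_assoc, hb7, mul_one]
        rw [hPU, hpi']
    _ = (bb' * (P * b' * P * b7' * P)) * U * b7 * a7' * P * ba5' := by simp only [mul_assoc]
    _ = U * bb5 * U * b7 * a7' * P * ba5' := by rw [← s1]
    _ = _ := by simp only [mul_assoc]

end abstract_ring

section fieldpart

variable {K : Type} [Field K] (φ : K ≃+* K)

theorem matb_ne {x : K} (hx : x ∈ XS φ) : x ≠ 0 := by
  rintro rfl
  simpa using hx.1

theorem matb_frne {x : K} (hx : x ∈ XS φ) (i : ℕ) : fr φ i x ≠ 0 :=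
  (_root_.map_ne_zero (fr φ i)).mpr (matb_ne φ hx)

theorem matb_btne {x : K} (hx : x ∈ XS φ) : bt φ x ≠ 0 := by
  unfold bt
  exact mul_ne_zero (matb_frne φ hx 5)
    (inv_ne_zero (mul_ne_zero (matb_ne φ hx) (matb_frne φ hx 2)))

theorem matb_E0 {x : K} (hx : x ∈ XS φ) : x * fr φ 1 x + x * fr φ 3 x +
    fr φ 2 x * fr φ 3 x + fr φ 5 x * fr φ 6 x = 0 := hx.2.2

theorem matb_E7 (h : Dat φ) {x : K} (hx : x ∈ XS φ) : fr φ 7 x * x + fr φ 7 x * fr φ 2 x +
    fr φ 1 x * fr φ 2 x + fr φ 4 x * fr φ 5 x = 0 := by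
  have h8 := matb_fr8 φ h
  have := congrArg (fr φ 7) hx.2.2
  simp only [map_add, map_mul, map_zero, matb_frfr] at this
  have e1 : fr φ (7 + 1) x = x := h.ord x
  have e2 : fr φ (7 + 3) x = fr φ 2 x := h8 2 x
  have e3 : fr φ (7 + 2) x = fr φ 1 x := h8 1 x
  have e4 : fr φ (7 + 5) x = fr φ 4 x := h8 4 x
  have e5 : fr φ (7 + 6) x = fr φ 5 x := h8 5 x
  rw [e1, e2, e3, e4, e5] at this
  exact this

theorem matb_coef (h : Dat φ) {x : K} (hx : x ∈ XS φ) :
    x⁻¹ * (fr φ 7 x)⁻¹ = bt φ x * fr φ 5 (bt φ x) ∧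
    x⁻¹ * (fr φ 7 x)⁻¹ + x⁻¹ * fr φ 2 (fr φ 7 x)⁻¹ + fr φ 2 x⁻¹ * fr φ 2 (fr φ 7 x)⁻¹ =
      bt φ x * fr φ 7 (bt φ x) ∧
    x⁻¹ * fr φ 2 (fr φ 7 x)⁻¹ + fr φ 2 x⁻¹ * fr φ 2 (fr φ 7 x)⁻¹ +
      fr φ 2 x⁻¹ * fr φ 4 (fr φ 7 x)⁻¹ = bt φ x * fr φ 9 (bt φ x) ∧
    fr φ 2 x⁻¹ * fr φ 4 (fr φ 7 x)⁻¹ = bt φ x * fr φ 11 (bt φ x) := by
  have h8 := matb_fr8 φ h
  have h2 : (2 : K) = 0 := h.two
  have E0 := matb_E0 φ hx
  have E7 := matb_E7 φ h hx
  have n0 := matb_ne φ hx
  have n1 := matb_frne φ hx 1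
  have n2 := matb_frne φ hx 2
  have n3 := matb_frne φ hx 3
  have n5 := matb_frne φ hx 5
  have n7 := matb_frne φ hx 7
  have f8 : fr φ 8 x = x := h.ord x
  have f9 : fr φ 9 x = fr φ 1 x := h8 1 x
  have f10 : fr φ 10 x = fr φ 2 x := h8 2 x
  have f11 : fr φ 11 x = fr φ 3 x := h8 3 x
  have f12 : fr φ 12 x = fr φ 4 x := h8 4 x
  have f13 : fr φ 13 x = fr φ 5 x := h8 5 x
  have f14 : fr φ 14 x = fr φ 6 x := h8 6 x
  have f16 : fr φ 16 x = x := by rw [h8 8 x]; exact h.ord x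
  simp only [bt, map_mul, map_inv₀, matb_frfr, Nat.reduceAdd, f8, f9, f10, f11, f12, f13, f14, f16]
  generalize fr φ 1 x = x1 at *
  generalize fr φ 2 x = x2 at *
  generalize fr φ 3 x = x3 at *
  generalize fr φ 4 x = x4 at *
  generalize fr φ 5 x = x5 at *
  generalize fr φ 6 x = x6 at *
  generalize fr φ 7 x = x7 at *
  refine ⟨?_, ?_, ?_, ?_⟩
  · field_simp
  · field_simp
    linear_combination E7 - x4 * x5 * h2
  · field_simp
    linear_combination E0 - x5 * x6 * h2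
  · field_simp

theorem matb_R (h : Dat φ) {x : K} (hx : x ∈ XS φ) :
    (1 + Zm) * dg φ x⁻¹ * (1 + Zm) * dg φ (fr φ 7 x)⁻¹ * (1 + Zm) =
      dg φ (bt φ x) * Um * dg φ (fr φ 5 (bt φ x)) := by
  obtain ⟨k0, k1, k2, k3⟩ := matb_coef φ h hx
  have z1 := matb_Zd φ h x⁻¹
  have z2 := matb_Zd φ h (fr φ 7 x)⁻¹
  have z3 := matb_Zd φ h (fr φ 2 (fr φ 7 x)⁻¹)
  rw [matb_frfr φ 2 2] at z3
  have y1 := matb_Zd φ h (fr φ 5 (bt φ x))
  rw [matb_frfr] at y1
  have y2 := matb_Zd φ h (fr φ 7 (bt φ x))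
  rw [matb_frfr] at y2
  have y3 := matb_Zd φ h (fr φ 9 (bt φ x))
  rw [matb_frfr] at y3
  rw [matb_abs z1 z2 z3, matb_Um, matb_abs2 (b := dg φ (bt φ x)) y1 y2 y3]
  simp only [← matb_dg_mul, ← matb_dg_add, Nat.reduceAdd]
  rw [← k0, ← k1, ← k2, ← k3]

theorem matb_Ue (r c : Fin 4) : (Um : Mat K) r c = if r ≤ c then 1 else X := by
  fin_cases r <;> fin_cases c <;> simp [Um]

theorem matb_ZUe (r c : Fin 4) : (Zm * Um : Mat K) r c = if r < c then 1 else X := by
  fin_cases r <;> fin_cases c <;> simp [Um, Zm]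

theorem matb_UZe (r c : Fin 4) : (Um * Zm : Mat K) r c = if r < c then 1 else X := by
  fin_cases r <;> fin_cases c <;> simp [Um, Zm]

theorem matb_dgl (e : K) (M : Mat K) (r c : Fin 4) :
    (dg φ e * M) r c = C (fr φ (2 * (r : ℕ)) e) * M r c := by
  unfold dg
  rw [Matrix.diagonal_mul]

theorem matb_dgr (e : K) (M : Mat K) (r c : Fin 4) :
    (M * dg φ e) r c = C (fr φ (2 * (c : ℕ)) e) * M r c := by
  unfold dg
  rw [Matrix.mul_diagonal, mul_comm]

/-- entries of `(1 + z) e (1 + z + z² + z³)` -/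
theorem matb_entry (h : Dat φ) (e : K) (r c : Fin 4) :
    ((1 + Zm) * dg φ e * Um : Mat K) r c =
      C (fr φ (2 * (r : ℕ)) e) * (if r ≤ c then 1 else X) +
      C (fr φ (2 * (r : ℕ) + 2) e) * (if r < c then 1 else X) := by
  have e1 : ((1 + Zm) * dg φ e * Um : Mat K) = dg φ e * Um + dg φ (fr φ 2 e) * (Zm * Um) := by
    rw [add_mul, one_mul, matb_Zd φ h, add_mul, mul_assoc (dg φ (fr φ 2 e))]
  rw [e1, Matrix.add_apply, matb_dgl, matb_dgl, matb_frfr, matb_Ue, matb_ZUe]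

theorem matb_refl_if (p : Prop) [Decidable p] :
    reflect 1 (if p then (1 : K[X]) else X) = if p then X else 1 := by
  split_ifs
  · rw [← C_1, reflect_C, pow_one, C_1, one_mul]
  · have := reflect_monomial (R := K) 1 1
    simpa using this

theorem matb_flip_entry (h : Dat φ) (e : K) :
    flp φ 1 ((1 + Zm) * dg φ e * Um) = Um * dg φ (fr φ 7 e) * (1 + Zm) := by
  have h8 := matb_fr8 φ h
  have e1 : (Um * dg φ (fr φ 7 e) * (1 + Zm) : Mat K) =
      Um * dg φ (fr φ 7 e) + (Um * Zm) * dg φ (fr φ 5 e) := by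
    have := matb_Zd φ h (fr φ 5 e)
    rw [matb_frfr] at this
    rw [mul_add, mul_one, mul_assoc Um Zm, this, mul_assoc]
  rw [e1]
  ext1 r c
  rw [Matrix.add_apply, matb_dgr, matb_dgr, matb_frfr, matb_frfr, matb_Ue, matb_UZe]
  simp only [flp, Matrix.of_apply]
  rw [matb_entry φ h]
  simp only [Polynomial.map_add, Polynomial.map_mul, map_C, matb_frfr,
    apply_ite (Polynomial.map (fr φ 5)), Polynomial.map_one, map_X, reflect_add, reflect_C_mul,
    matb_refl_if]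
  rw [show 5 + (2 * (c : ℕ) + 2) = 2 * (c : ℕ) + 7 by ring, show 5 + 2 * (c : ℕ) = 2 * (c : ℕ) + 5 by ring]
  rcases lt_trichotomy r c with h1 | h1 | h1
  · rw [if_neg (not_le.mpr h1), if_neg (not_lt.mpr h1.le), if_pos h1.le, if_pos h1]; ring
  · subst h1
    rw [if_pos le_rfl, if_neg (lt_irrefl _), if_pos le_rfl, if_neg (lt_irrefl _)]; ring
  · rw [if_pos h1.le, if_pos h1, if_neg (not_le.mpr h1), if_neg (not_lt.mpr h1.le)]; ring

theorem matb_flip_dg (u v : K) (B : Mat K) :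
    flp φ 1 (dg φ u * B * dg φ v) = dg φ (fr φ 5 v) * flp φ 1 B * dg φ (fr φ 5 u) := by
  ext1 r c
  rw [matb_dgr, matb_dgl]
  simp only [flp, Matrix.of_apply]
  rw [matb_dgr, matb_dgl]
  simp only [Polynomial.map_mul, map_C, matb_frfr, reflect_C_mul]
  rw [add_comm 5, add_comm 5]
  ring

theorem matb_detU (h : Dat φ) : (Um : Mat K).det = (1 + X) ^ 3 := by
  have h2 := matb_two φ h
  simp [Um, Matrix.det_succ_row_zero, Fin.sum_univ_succ, Fin.succAbove]
  linear_combination (-(3 * X) - X ^ 3 : K[X]) * h2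

theorem matb_main (h : Dat φ) {a b : K} (ha : a ∈ XS φ) (hb : b ∈ XS φ) :
    (th φ b * ad φ a) * Um = Um * flp φ 1 (th φ a * ad φ b) := by
  have hRb := matb_R φ h hb
  have hRa := matb_R φ h ha
  have e1 : th φ a * ad φ b =
      dg φ (bt φ a)⁻¹ * ((1 + Zm) * dg φ (b * a⁻¹) * Um) * dg φ (bt φ b) := by
    rw [mul_comm b, matb_dg_mul]
    simp only [th, ad, mul_assoc]
  rw [e1, matb_flip_dg, matb_flip_entry φ h, map_mul, matb_dg_mul, map_inv₀ (fr φ 7),
    map_inv₀ (fr φ 5)]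
  exact matb_abs3 (matb_PU φ h) ((matb_abs_comm rfl matb_Um).trans (matb_PU φ h))
    (fun x => by rw [smul_mul_assoc, one_mul, mul_smul_comm, mul_one])
    (matb_dg_inv φ (matb_btne φ hb))
    (matb_dg_inv φ (matb_frne φ hb 7))
    (matb_dg_inv' φ ((_root_.map_ne_zero (fr φ 5)).mpr (matb_btne φ ha)))
    (matb_dg_inv' φ (matb_ne φ ha)) hRb hRa

theorem matb_deg (h : Dat φ) (a b : K) (r c : Fin 4) (s : ℕ) (hs : 1 < s) :
    ((th φ a * ad φ b) r c).coeff s = 0 := by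
  have e1 : th φ a * ad φ b =
      dg φ (bt φ a)⁻¹ * ((1 + Zm) * dg φ (b * a⁻¹) * Um) * dg φ (bt φ b) := by
    rw [mul_comm b, matb_dg_mul]
    simp only [th, ad, mul_assoc]
  rw [e1, matb_dgr, matb_dgl, matb_entry φ h]
  have hX : ∀ (p : Prop) [Decidable p], (if p then (1 : K[X]) else X).coeff s = 0 := by
    intro p _
    split_ifs
    · rw [coeff_one, if_neg (by omega)]
    · rw [coeff_X, if_neg (by omega)]
  simp only [coeff_C_mul, coeff_add, hX, mul_zero, add_zero]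

end fieldpart

theorem st_MATB : ST_MATB := by
  intro K _ φ h a ha b hb
  exact ⟨matb_main φ h ha hb, fun r c s hs => matb_deg φ h a b r c s hs, matb_detU φ h⟩

end Pool.Agent.Helper51.GT
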